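import Pool.Agent.H319R3.BogoI

/-!
# Small points in fields without new torsion
-/

set_option autoImplicit false

open Polynomial ComplexConjugate IntermediateField

namespace Pool.Agent.Y348.BG

open Pool.Agent.H319R3.Bogo

noncomputable section

/-- existence of small points, with two-sided bounds of the degrees (after `small_points` of
`Pool.Agent.H319R3.BogoI`) -/
theorem small_points' (n : ℕ) : ∃ x ∈ FF, x ≠ 0 ∧ 3 ^ n ≤ (minpoly ℚ x).natDegree ∧
    (minpoly ℚ x).natDegree ≤ 2 * 3 ^ n ∧ (∀ φ : Qb →ₐ[ℚ] ℂ, ‖φ x‖ = 1) ∧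
    height x ≤ Real.log (3 ^ (18 * n + 13)) / 3 ^ n := by
  have hodd : Odd (3 ^ n) := Odd.pow (by decide)
  obtain ⟨e, hd⟩ := hodd
  obtain ⟨b, c, hsym, hdom, hadic, hbpos, hsize⟩ := exists_data n e hd
  set d := 2 * e + 1 with hdd
  obtain ⟨φ0⟩ := exists_phi
  -- complex coefficients
  have hAne : (b d : Qb) + c d * s0 ≠ 0 := by
    intro h
    have h1 := congrArg φ0 h
    rw [map_add, map_mul, map_intCast, map_intCast, map_zero] at h1
    have h2 := hdom (-φ0 s0) (by rw [neg_sq]; exact phi_s0 φ0)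
    have h3 := hsym d le_rfl
    rw [Nat.sub_self] at h3
    rw [h3.1, h3.2] at h2
    push_cast at h2
    rw [neg_mul_neg, h1, norm_zero] at h2
    have : 0 ≤ ∑ k ∈ Finset.Ioc 0 e, ‖(b k : ℂ) + c k * -φ0 s0‖ :=
      Finset.sum_nonneg (fun _ _ => norm_nonneg _)
    linarith
  -- the polynomial
  set pQ : Qb[X] := ∑ k ∈ Finset.range (d + 1), C ((b k : Qb) + c k * s0) * X ^ k with hpQ
  have hcoeff : pQ.coeff d = (b d : Qb) + c d * s0 := by
    rw [hpQ]
    simp only [finsetSum_coeff, coeff_C_mul, coeff_X_pow, mul_ite, mul_one, mul_zero]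
    rw [Finset.sum_ite_eq]
    simp
  have hpdeg : pQ.natDegree = d := by
    apply natDegree_eq_of_le_of_coeff_ne_zero
    · rw [hpQ]
      apply natDegree_sum_le_of_forall_le
      intro k hk
      rw [Finset.mem_range] at hk
      exact (natDegree_C_mul_X_pow_le _ _).trans (by omega)
    · rw [hcoeff]; exact hAne
  obtain ⟨x, hx⟩ := IsAlgClosed.exists_root pQ (by
    intro h
    have := natDegree_eq_zero_iff_degree_le_zero.2 h.le
    omega)
  have hroot : ∑ k ∈ Finset.range (d + 1), ((b k : Qb) + c k * s0) * x ^ k = 0 := by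
    rw [IsRoot, hpQ, eval_finsetSum] at hx
    rw [← hx]
    apply Finset.sum_congr rfl
    intro k _
    rw [eval_mul, eval_C, eval_pow, eval_X]
  -- complex absolute values
  have hcirc : ∀ φ : Qb →ₐ[ℚ] ℂ, ‖φ x‖ = 1 := by
    intro φ
    apply circle_roots e (fun k => (b k : ℂ) + c k * φ s0)
    · intro k hk
      rw [(hsym k hk).1, (hsym k hk).2, map_add, map_mul, phi_s0_conj, map_intCast, map_intCast]
      push_cast
      ring
    · exact hdom (φ s0) (phi_s0 φ)
    · have h1 := congrArg φ hroot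
      rw [map_zero, map_sum] at h1
      rw [← h1]
      apply Finset.sum_congr rfl
      intro k _
      rw [map_mul, map_add, map_mul, map_intCast, map_intCast, map_pow]
  have hx0 : x ≠ 0 := by
    rintro rfl
    have := hcirc φ0
    rw [map_zero, norm_zero] at this
    exact zero_ne_one this
  -- 3-adic part
  set a3 : ℕ → Q3 := fun k => (b k : ℚ_[3]) + c k * (s3 : ℚ_[3]) with ha3
  have ha3T : ∀ k ≤ 3 ^ n, ‖a3 k - ((T n).coeff k : Q3)‖ ≤ (1 / 3 : ℝ) ^ (4 * n + 2) := by
    intro k hk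
    have h1 := hadic k (by rw [← hd]; exact hk)
    rw [PadicInt.norm_def] at h1
    push_cast at h1
    exact h1
  have hadic2 : ∀ ψ : Qb →ₐ[ℚ] Om, ψ x ∈ L ∧
      (‖ψ x‖ ^ (3 ^ n) = 1 / 3 ∨ ‖ψ x‖ ^ (3 ^ n) = 3) := by
    intro ψ
    have hy0 : ψ x ≠ 0 := by
      intro h
      apply hx0
      apply ψ.toRingHom.injective
      rw [AlgHom.toRingHom_eq_coe, RingHom.coe_coe, h, map_zero]
    have h1 := congrArg ψ hroot
    rw [map_zero, map_sum] at h1
    have hL : ∀ k, algebraMap Q3 Om (a3 k) = (b k : Om) + c k * s3O := by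
      intro k
      rw [ha3]
      simp only
      rw [map_add, map_mul, map_intCast, map_intCast]
      rfl
    have hR : ∀ k, ψ ((b k : Qb) + c k * s0) = (b k : Om) + c k * ψ s0 := by
      intro k
      rw [map_add, map_mul, map_intCast, map_intCast]
    rcases psi_s0 ψ with hs | hs
    · have h2 : ∑ k ∈ Finset.range (3 ^ n + 1), algebraMap Q3 Om (a3 k) * (ψ x) ^ k = 0 := by
        rw [← h1, hd]
        apply Finset.sum_congr rfl
        intro k _
        rw [hL, map_mul ψ, hR, map_pow, hs]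
      obtain ⟨h3, h4⟩ := krasner_T n a3 ha3T (ψ x) h2
      exact ⟨mem_L.2 ⟨n, h3⟩, Or.inl h4⟩
    · have h2 : ∑ k ∈ Finset.range (3 ^ n + 1), algebraMap Q3 Om (a3 k) * ((ψ x)⁻¹) ^ k = 0 := by
        have h5 : ∑ k ∈ Finset.range (3 ^ n + 1), algebraMap Q3 Om (a3 k) * ((ψ x)⁻¹) ^ k =
            ((ψ x) ^ d)⁻¹ * ∑ k ∈ Finset.range (d + 1), ψ (((b k : Qb) + c k * s0) * x ^ k) := by
          rw [hd, Finset.mul_sum, ← Finset.sum_range_reflect]
          apply Finset.sum_congr rfl
          intro k hk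
          rw [Finset.mem_range] at hk
          have h3 : d + 1 - 1 - k = d - k := by omega
          rw [h3, hL, map_mul ψ, hR, map_pow, hs, (hsym k (by omega)).1, (hsym k (by omega)).2]
          have h4 : (ψ x) ^ d = (ψ x) ^ (d - k) * (ψ x) ^ k := by rw [← pow_add]; congr 1; omega
          rw [h4, inv_pow]
          push_cast
          field_simp
          try ring
        rw [h5, h1, mul_zero]
      obtain ⟨h3, h4⟩ := krasner_T n a3 ha3T _ h2
      refine ⟨?_, Or.inr ?_⟩
      · have := L.inv_mem (mem_L.2 ⟨n, h3⟩)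
        rwa [inv_inv] at this
      · rw [norm_inv, inv_pow] at h4
        have h5 : ‖ψ x‖ ^ 3 ^ n ≠ 0 := pow_ne_zero _ (norm_ne_zero_iff.2 hy0)
        field_simp at h4
        linarith
  have hdeg : 3 ^ n ≤ (minpoly ℚ x).natDegree := by
    obtain ⟨ψ⟩ := exists_psi
    refine (degree_of_norm n (ψ x) (hadic2 ψ).2).trans ?_
    have h1 : aeval (ψ x) ((minpoly ℚ x).map (algebraMap ℚ Q3)) = 0 := by
      rw [aeval_map_algebraMap, aeval_algHom_apply, minpoly.aeval, map_zero]
    have h2 : (minpoly ℚ x).map (algebraMap ℚ Q3) ≠ 0 :=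
      Polynomial.map_ne_zero (minpoly.ne_zero (qb_int x))
    have h3 := natDegree_le_of_dvd (minpoly.dvd _ _ h1) h2
    rwa [natDegree_map] at h3
  suffices hsuf : (minpoly ℚ x).natDegree ≤ 2 * 3 ^ n ∧
      height x ≤ Real.log (3 ^ (18 * n + 13)) / 3 ^ n by
    refine ⟨x, ?_, hx0, hdeg, hsuf.1, hcirc, hsuf.2⟩
    rw [mem_FF]
    refine ⟨⟨x⁻¹, fun φ => ?_⟩, fun ψ => (hadic2 ψ).1⟩
    have h1 : φ x * conj (φ x) = 1 := by
      rw [Complex.mul_conj, Complex.normSq_eq_norm_sq, hcirc φ]; norm_num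
    rw [map_inv₀]
    exact eq_inv_of_mul_eq_one_right h1
  · -- height
    set P0 : ℤ[X] := ∑ k ∈ Finset.range (d + 1), C (b k) * X ^ k with hP0
    set P1 : ℤ[X] := ∑ k ∈ Finset.range (d + 1), C (c k) * X ^ k with hP1
    have hP0d : P0.natDegree ≤ d := by
      rw [hP0]
      apply natDegree_sum_le_of_forall_le
      intro k hk
      rw [Finset.mem_range] at hk
      exact (natDegree_C_mul_X_pow_le _ _).trans (by omega)
    have hP1d : P1.natDegree ≤ d := by
      rw [hP1]
      apply natDegree_sum_le_of_forall_le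
      intro k hk
      rw [Finset.mem_range] at hk
      exact (natDegree_C_mul_X_pow_le _ _).trans (by omega)
    have hP0c : P0.coeff d = b d := by
      rw [hP0]
      simp only [finsetSum_coeff, coeff_C_mul, coeff_X_pow, mul_ite, mul_one, mul_zero]
      rw [Finset.sum_ite_eq]
      simp
    have hP1c : P1.coeff d = c d := by
      rw [hP1]
      simp only [finsetSum_coeff, coeff_C_mul, coeff_X_pow, mul_ite, mul_one, mul_zero]
      rw [Finset.sum_ite_eq]
      simp
    set W : ℤ[X] := P0 * P0 + C 2 * (P1 * P1) with hW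
    have hWc : W.coeff (d + d) = b d * b d + 2 * (c d * c d) := by
      rw [hW, coeff_add, coeff_C_mul, coeff_mul_add_eq_of_natDegree_le hP0d hP0d,
        coeff_mul_add_eq_of_natDegree_le hP1d hP1d, hP0c, hP1c]
    have hWpos : 0 < b d * b d + 2 * (c d * c d) := by
      have : 0 < b d * b d := mul_pos hbpos hbpos
      nlinarith [mul_self_nonneg (c d)]
    have hWd : W.natDegree = d + d := by
      apply natDegree_eq_of_le_of_coeff_ne_zero
      · rw [hW]
        apply natDegree_add_le_of_degree_le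
        · exact natDegree_mul_le_of_le hP0d hP0d
        · refine (natDegree_C_mul_le _ _).trans (natDegree_mul_le_of_le hP1d hP1d)
      · rw [hWc]; exact hWpos.ne'
    have hW0 : W ≠ 0 := by
      intro h
      rw [h, coeff_zero] at hWc
      omega
    have hlc : W.leadingCoeff = b d * b d + 2 * (c d * c d) := by
      rw [leadingCoeff, hWd, hWc]
    have hWx : aeval x W = 0 := by
      have h1 : aeval x P0 + s0 * aeval x P1 = 0 := by
        rw [hP0, hP1, map_sum, map_sum, Finset.mul_sum, ← Finset.sum_add_distrib, ← hroot]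
        apply Finset.sum_congr rfl
        intro k _
        simp only [map_mul, map_pow, aeval_X, eq_intCast, map_intCast]
        ring
      rw [hW, map_add, map_mul, map_mul, map_mul, aeval_C]
      simp only [eq_intCast, Int.cast_ofNat]
      linear_combination (aeval x P0 - s0 * aeval x P1) * h1 + (aeval x P1) ^ 2 * s0_sq
    have hB : |(W.leadingCoeff : ℝ)| ≤ (3 : ℝ) ^ (18 * n + 13) := by
      rw [hlc]
      have h1 : (0 : ℝ) ≤ ((b d * b d + 2 * (c d * c d) : ℤ) : ℝ) := by exact_mod_cast hWpos.le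
      rw [abs_of_nonneg h1]
      refine le_trans (le_of_eq ?_) hsize
      push_cast
      ring
    constructor
    · have hWx' : aeval x (W.map (Int.castRingHom ℚ)) = 0 := by
        rw [← hWx]
        have e1 : (Int.castRingHom ℚ) = algebraMap ℤ ℚ := rfl
        rw [e1, aeval_map_algebraMap]
      have hW0' : W.map (Int.castRingHom ℚ) ≠ 0 := by
        rw [Ne, Polynomial.map_eq_zero_iff (RingHom.injective_int _)]
        exact hW0
      have h3 := natDegree_le_of_dvd (minpoly.dvd ℚ x hWx') hW0'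
      refine h3.trans (natDegree_map_le.trans ?_)
      rw [hWd]
      omega
    refine (height_upper x W hW0 hWx hcirc _ hB).trans ?_
    have hlog : 0 ≤ Real.log ((3 : ℝ) ^ (18 * n + 13)) := by
      apply Real.log_nonneg
      exact one_le_pow₀ (by norm_num)
    apply div_le_div_of_nonneg_left hlog (by positivity)
    exact_mod_cast hdeg


/-- points of arbitrarily large degree `D` and of height `O(log D / D)` -/
theorem small_points_deg (n : ℕ) (hn : 1 ≤ n) : ∃ x ∈ FF, 3 ^ n ≤ (minpoly ℚ x).natDegree ∧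
    (∀ m : ℕ, 0 < m → x ^ m ≠ 1) ∧ (∀ φ : Qb →ₐ[ℚ] ℂ, ‖φ x‖ = 1) ∧
    height x ≤ 62 * Real.log ((minpoly ℚ x).natDegree) / (minpoly ℚ x).natDegree := by
  obtain ⟨x, hx, hx0, hd1, hd2, hc, hh⟩ := small_points' n
  refine ⟨x, hx, hd1, ?_, hc, hh.trans ?_⟩
  · intro m hm hxm
    have h3 : 1 < (minpoly ℚ x).natDegree :=
      lt_of_lt_of_le (Nat.one_lt_pow (by omega) (by norm_num)) hd1
    have h4 : (minpoly ℚ x).natDegree = 1 := by
      rcases torsion_FF x hx m hm hxm with h | h
      · rw [h]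
        have : (1 : Qb) = algebraMap ℚ Qb 1 := by simp
        rw [this]
        exact minpoly.natDegree_eq_one_iff.2 ⟨1, rfl⟩
      · rw [h]
        exact minpoly.natDegree_eq_one_iff.2 ⟨-1, by simp⟩
    omega
  · set D := (minpoly ℚ x).natDegree with hD
    have hD0 : 0 < (D : ℝ) := by
      have : 0 < 3 ^ n := by positivity
      exact_mod_cast lt_of_lt_of_le this hd1
    have h3 : (0 : ℝ) < 3 ^ n := by positivity
    have hd1' : (3 : ℝ) ^ n ≤ D := by exact_mod_cast hd1
    have hd2' : (D : ℝ) ≤ 2 * 3 ^ n := by exact_mod_cast hd2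
    have hl1 : (n : ℝ) * Real.log 3 ≤ Real.log D := by
      rw [← Real.log_pow]
      exact Real.log_le_log h3 hd1'
    have hl3 : 0 < Real.log 3 := Real.log_pos (by norm_num)
    have hn' : (1 : ℝ) ≤ n := by exact_mod_cast hn
    have hl2 : Real.log 3 ≤ Real.log D := by nlinarith
    have h4 : Real.log ((3 : ℝ) ^ (18 * n + 13)) ≤ 31 * Real.log D := by
      rw [Real.log_pow]
      push_cast
      nlinarith
    rw [div_le_div_iff₀ h3 hD0]
    have hl0 : 0 ≤ Real.log D := hl3.le.trans hl2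
    calc Real.log ((3 : ℝ) ^ (18 * n + 13)) * D ≤ (31 * Real.log D) * (2 * 3 ^ n) := by
          gcongr
      _ = 62 * Real.log D * 3 ^ n := by ring

theorem FF0_stable (σ : Qb →ₐ[ℚ] Qb) (x : Qb) (hx : x ∈ FF0) : σ x ∈ FF0 := by
  rw [mem_FF0] at hx ⊢
  exact ⟨fun φ => hx.1 (φ.comp σ), fun ψ => hx.2 (ψ.comp σ)⟩

/-- a field stable under all automorphisms is Galois over all its subfields -/
theorem gal_over (K E : IntermediateField ℚ Qb) (hK : K ≤ E)
    (hE : ∀ (σ : Qb →ₐ[ℚ] Qb) (x : Qb), x ∈ E → σ x ∈ E) :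
    IsGalois K (IntermediateField.extendScalars hK) := by
  have h1 : Normal K (IntermediateField.extendScalars hK) := by
    rw [IntermediateField.normal_iff_forall_map_le]
    intro σ y hy
    obtain ⟨x, hx, rfl⟩ := hy
    exact hE (σ.restrictScalars ℚ) x hx
  exact ⟨⟩

theorem FF0_galois : IsGalois ℚ FF0 := by
  have h1 : @Normal ℚ FF0 _ _ (IntermediateField.algebra' FF0) := by
    rw [IntermediateField.normal_iff_forall_map_le]
    intro σ y hy
    obtain ⟨x, hx, rfl⟩ := hy
    exact FF0_stable σ x hx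
  have e : (IntermediateField.algebra' FF0 : Algebra ℚ FF0) = DivisionRing.toRatAlgebra :=
    Subsingleton.elim _ _
  rw [e] at h1
  exact ⟨⟩

theorem s0_notMem : s0 ∉ FF0 := by
  intro h
  obtain ⟨φ⟩ := exists_phi
  have h1 := ((mem_FF0 s0).1 h).1 φ
  rw [phi_s0_conj] at h1
  have h2 : φ s0 = 0 := by
    have : (2 : ℂ) * φ s0 = 0 := by linear_combination -h1
    exact (mul_eq_zero.1 this).resolve_left two_ne_zero
  exact s0_ne (φ.toRingHom.injective (by
    rw [AlgHom.toRingHom_eq_coe, RingHom.coe_coe, h2, map_zero]))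

theorem finrank_two :
    Module.finrank FF0 (IntermediateField.extendScalars FF0_le) = 2 := by
  have hint : IsIntegral FF0 s0 := (qb_int s0).tower_top
  have hE : IntermediateField.extendScalars FF0_le = FF0⟮s0⟯ := by
    apply le_antisymm
    · intro x hx
      rw [IntermediateField.mem_extendScalars] at hx
      obtain ⟨a, ha, b, hb, rfl⟩ := FF_decomp x hx
      apply add_mem
      · exact (FF0⟮s0⟯).algebraMap_mem (⟨a, ha⟩ : FF0)
      · apply mul_mem
        · exact (FF0⟮s0⟯).algebraMap_mem (⟨b, hb⟩ : FF0)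
        · exact mem_adjoin_simple_self _ _
    · rw [IntermediateField.adjoin_simple_le_iff, IntermediateField.mem_extendScalars]
      exact s0_mem
  rw [hE, IntermediateField.adjoin.finrank hint]
  apply le_antisymm
  · have h1 : (minpoly FF0 s0) ∣ (X ^ 2 + C 2 : FF0[X]) := by
      apply minpoly.dvd
      have h0 : algebraMap FF0 Qb 2 = 2 := map_ofNat _ 2
      rw [map_add, map_pow, aeval_X, aeval_C, s0_sq, h0]
      ring
    have h2 : (X ^ 2 + C 2 : FF0[X]).natDegree = 2 := natDegree_X_pow_add_C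
    have h3 : (X ^ 2 + C 2 : FF0[X]) ≠ 0 := by
      intro h
      rw [h, natDegree_zero] at h2
      omega
    exact (natDegree_le_of_dvd h1 h3).trans h2.le
  · rw [minpoly.two_le_natDegree_iff hint]
    rintro ⟨a, ha⟩
    exact s0_notMem (ha ▸ a.2)

/-- totally real fields in which `3` splits completely -/
theorem le_FF0 (K : IntermediateField ℚ Qb)
    (h1 : ∀ x ∈ K, ∀ φ : Qb →ₐ[ℚ] ℂ, conj (φ x) = φ x)
    (h2 : ∀ x ∈ K, ∀ ψ : Qb →ₐ[ℚ] PadicAlgCl 3, ∃ a : ℚ_[3], algebraMap ℚ_[3] (PadicAlgCl 3) a = ψ x) :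
    K ≤ FF0 := by
  intro x hx
  rw [mem_FF0]
  refine ⟨h1 x hx, fun ψ => ?_⟩
  obtain ⟨a, ha⟩ := h2 x hx ψ
  rw [← ha]
  exact L.algebraMap_mem a

end

end Pool.Agent.Y348.BG
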